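import Pool.Agent.MP_ca7024_gt.H50.Twist
import Pool.Agent.MP_ca7024_gt.H50.Cert

/-! The mutant pair and its connected sums. -/

namespace Pool.Agent.MP_ca7024_gt.H50

open Kind

/-- The part below the box. -/
def pre : List Gen := [(2, cup), (4, cup), (6, cup), (1, ov), (0, un), (3, ov), (2, ov), (5, ov),
  (4, un), (3, ov), (5, ov), (5, ov)]

/-- The box: the sum of the rational tangles `1/3` and `-1/3`. -/
def box : List Gen := [(1, cup), (0, un), (0, un), (0, un), (2, ov), (2, ov), (2, ov), (1, cap)]

/-- The part above the box. -/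
def post : List Gen := [(3, cap), (2, cap), (1, cap)]

/-- The first knot without its lowest minimum and highest maximum. -/
def bodyA : List Gen := pre ++ sh 2 box ++ post

/-- The second knot without its lowest minimum and highest maximum. -/
def bodyB : List Gen := pre ++ sh 2 (rotV 2 box) ++ post

/-- `n` copies of a body and a maximum. -/
def tl (B : List Gen) : ℕ → List Gen
  | 0 => [(0, cap)]
  | n + 1 => B ++ tl B n

theorem tl_tangle (B : List Gen) (h : Tangle 2 B 2) (n : ℕ) : Tangle 2 (tl B n) 0 := by
  induction n with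
  | zero => exact tangle_of_B [(0, cap)] _ _ (by decide)
  | succ n ih => exact (tangle_append _ _ _ _).2 ⟨2, h, ih⟩

theorem mem_orients_append (u v : List Gen) (a b c : List Bool) (h1 : b ∈ orients u a)
    (h2 : c ∈ orients v b) : c ∈ orients (u ++ v) a := by
  rw [← Multiset.mem_coe, ← run_QB] at *
  rw [run_append, Multiset.mem_bind]
  exact ⟨b, h1, h2⟩

theorem tl_or (B : List Gen) (h : ∀ b, [!b, !!b] ∈ orients B [b, !b]) (n : ℕ) (b : Bool) :
    [] ∈ orients (tl B n) [b, !b] := by
  induction n generalizing b with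
  | zero => cases b <;> simp [tl, orients, dirs]
  | succ n ih => exact mem_orients_append _ _ _ _ _ (h b) (ih _)

theorem twist_ext (p : ℕ) (u w v o : _) (n q : ℕ) (h1 : o ∈ orients u [])
    (h2 : [false, !false] ∈ orients w o) (h3 : [] ∈ orients v [false, !false]) (hn : n ≤ 2 * p)
    (hq : q + n ≤ o.length)
    (hb : ((o.drop q).take n).count true = ((o.drop q).take n).count false) :
    Twist p (u ++ w ++ v) (u ++ full n q ++ w ++ v) :=
  ⟨u, w ++ v, o, n, q, h1, mem_orients_append _ _ _ _ _ h2 h3, hn, hq, hb,
    Or.inl ⟨by simp, by simp⟩⟩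

theorem untwists_iso (p : ℕ) (w w' : List Gen) (m : ℕ) (h : Iso w w') (h' : Untwists p w' m) :
    Untwists p w m := by
  cases h' with
  | zero _ h1 => exact Untwists.zero _ (Relation.EqvGen.trans _ _ _ h h1)
  | succ _ w₁ w₂ m h1 h2 h3 =>
    exact Untwists.succ _ w₁ w₂ m (Relation.EqvGen.trans _ _ _ h h1) h2 h3

theorem tangleA : Tangle 2 bodyA 2 := tangle_of_B _ _ _ (by decide)
theorem tangleB' : Tangle 2 bodyB 2 := tangle_of_B _ _ _ (by decide)

theorem upperA (p : ℕ) (hp : 2 ≤ p) (n : ℕ) : Untwists p ((0, cup) :: tl bodyA n) n := by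
  induction n with
  | zero => exact Untwists.zero _ (Relation.EqvGen.refl _)
  | succ n ih =>
    have h := twist_ext p (dA0.take 17) (dA0.drop 29) (tl bodyA n)
      [false, true, false, true, true, false, false, true, false, true] 4 0 (by decide +kernel)
      (by decide +kernel) (tl_or _ (by decide +kernel) n false) (by omega) (by decide) (by decide)
    have e1 : dA0.take 17 ++ dA0.drop 29 = (0, cup) :: bodyA := by decide +kernel
    have e2 : dA0.take 17 ++ full 4 0 ++ dA0.drop 29 = dA0 := by decide +kernel
    rw [e1, e2] at h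
    refine Untwists.succ _ _ _ n (Relation.EqvGen.refl _) h ?_
    exact untwists_iso p _ _ n (iso_of_eqvGen _ _ _ (tl_tangle _ tangleA n) dA_iso) ih

theorem upperB (p : ℕ) (hp : 1 ≤ p) (n : ℕ) : Untwists p ((0, cup) :: tl bodyB n) (2 * n) := by
  induction n with
  | zero => exact Untwists.zero _ (Relation.EqvGen.refl _)
  | succ n ih =>
    have hv := tl_or bodyB (by decide +kernel) n false
    have h1 := twist_ext p (dB0.take 6) (bodyB.drop 5) (tl bodyB n)
      [false, true, false, true, true, false, false, true] 2 0 (by decide +kernel)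
      (by decide +kernel) hv (by omega) (by decide) (by decide)
    have h2 := twist_ext p (dB0.take 17) (dB0.drop 19) (tl bodyB n)
      [false, true, true, false, false, true, false, true, false, true] 2 4 (by decide +kernel)
      (by decide +kernel) hv (by omega) (by decide) (by decide)
    have e1 : dB0.take 6 ++ bodyB.drop 5 = (0, cup) :: bodyB := by decide +kernel
    have e2 : dB0.take 6 ++ full 2 0 ++ bodyB.drop 5 = dB0.take 17 ++ dB0.drop 19 := by
      decide +kernel
    have e3 : dB0.take 17 ++ full 2 4 ++ dB0.drop 19 = dB0 := by decide +kernel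
    rw [e1, e2] at h1
    rw [e3] at h2
    refine Untwists.succ _ _ _ (2 * n + 1) (Relation.EqvGen.refl _) h1 ?_
    refine Untwists.succ _ _ _ (2 * n) (Relation.EqvGen.refl _) h2 ?_
    exact untwists_iso p _ _ _ (iso_of_eqvGen _ _ _ (tl_tangle _ tangleB' n) dB_iso) ih

theorem mutant_tl (n : ℕ) (x : List Gen) (hx : Tangle 0 x 2) :
    Mutant (x ++ tl bodyA n) (x ++ tl bodyB n) := by
  induction n generalizing x with
  | zero => exact Relation.ReflTransGen.refl
  | succ n ih =>
    have h := ih (x ++ bodyB) ((tangle_append _ _ _ _).2 ⟨2, hx, tangleB'⟩)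
    rw [List.append_assoc, List.append_assoc] at h
    refine Relation.ReflTransGen.head (Or.inr ?_) h
    refine ⟨x ++ pre, box, rotV 2 box, post ++ tl bodyA n, 8, 2,
      (tangle_append _ _ _ _).2 ⟨2, hx, tangle_of_B _ _ _ (by decide)⟩, by omega,
      tangle_of_B _ _ _ (by decide),
      (tangle_append _ _ _ _).2 ⟨2, tangle_of_B _ _ _ (by decide), tl_tangle _ tangleA n⟩,
      Or.inl rfl, by simp [tl, bodyA], by simp [bodyB]⟩

/-- Two ends that can be joined. -/
def isS : List CA → Bool
  | [a, c] => decide (c = QA.bar a)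
  | _ => false

theorem card_tl (B : List Gen) (c : ℕ)
    (h : ∀ a : CA, c ≤ Multiset.card ((run QA B [a, QA.bar a]).filter (isS · = true))) (n : ℕ)
    (a : CA) : c ^ n ≤ Multiset.card (run QA (tl B n) [a, QA.bar a]) := by
  induction n generalizing a with
  | zero => simp [tl]
  | succ n ih =>
    have h1 := Multiset.card_le_card (bind_mono (f := run QA (tl B n))
      (Multiset.filter_le (isS · = true) (run QA B [a, QA.bar a])) fun _ _ => le_rfl)
    rw [← run_append, Multiset.card_bind] at h1
    refine le_trans ?_ h1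
    have := Multiset.card_nsmul_le_sum (s := ((run QA B [a, QA.bar a]).filter
      (isS · = true)).map (Multiset.card ∘ run QA (tl B n))) (a := c ^ n) (by
        intro y hy
        obtain ⟨r, hr, rfl⟩ := Multiset.mem_map.1 hy
        have hr := (Multiset.mem_filter.1 hr).2
        rcases r with _ | ⟨x, _ | ⟨y, _ | ⟨z, r⟩⟩⟩ <;> simp [isS] at hr
        subst hr
        exact ih x)
    refine le_trans ?_ this
    rw [Multiset.card_map, pow_succ', smul_eq_mul]
    exact Nat.mul_le_mul_right _ (h a)

theorem card_knot (B : List Gen) (c : ℕ)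
    (h : ∀ a : CA, c ≤ Multiset.card ((run QA B [a, QA.bar a]).filter (isS · = true)))
    (n : ℕ) : 10 * c ^ n ≤ Multiset.card (run QA ((0, cup) :: tl B n) []) := by
  rw [run_cons, step_cup, Multiset.bind_map, Multiset.card_bind]
  have := Multiset.card_nsmul_le_sum (s := Finset.univ.val.map (Multiset.card ∘ fun a : CA =>
    run QA (tl B n) [a, QA.bar a])) (a := c ^ n) (by
      intro y hy
      obtain ⟨x, -, rfl⟩ := Multiset.mem_map.1 hy
      exact card_tl B c h n x)
  simpa using this

/-- Directions at the minima. -/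
def flags (b : Bool) : List Bool := [!b, b, !b, b, b, b, b, b, b, b, b, b, !b, b, b, b, b, b, b, b,
  b, b, b]

/-- A pruned enumeration of colourings: at some minima only one colour is tried. -/
def runH : List (Gen × Bool) → List (Option (List (ZMod 5))) → List (ZMod 5) → List CA →
    List (List CA)
  | [], _, _, s => [s]
  | g :: w, o, h, s => ((stepL g.2 g.1.1 g.1.2 s).filter fun r => match o.headD none with
      | none => true
      | some cs => (r.getD g.1.1 (true, 0)).2 == (List.zipWith (· * ·) cs h).sum).flatMap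
        fun r => runH w o.tail (h ++ [(r.getD g.1.1 (true, 0)).2]) r

theorem runH_le (w : List (Gen × Bool)) (o : List (Option (List (ZMod 5)))) (h : List (ZMod 5))
    (s : List CA) : (runH w o h s : Multiset (List CA)) ≤ runO w s := by
  induction w generalizing o h s with
  | nil => exact le_rfl
  | cons g w ih =>
    rw [runO_cons, runH, ← Multiset.coe_bind]
    exact bind_mono (Multiset.coe_le.2 List.filter_sublist.subperm) fun r _ => ih _ _ r

theorem count_le (B : List Gen) (b : Bool) (hB : (B.zip (flags b)).map Prod.fst = B)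
    (o : List (Option (List (ZMod 5)))) (h : List (ZMod 5))
    (s : List CA) : ((runH (B.zip (flags b)) o h s).filter isS).length ≤
      Multiset.card ((run QA B s).filter (isS · = true)) := by
  have := Multiset.card_le_card (Multiset.filter_le_filter (isS · = true)
    ((runH_le _ o h s).trans (runO_le (B.zip (flags b)) s)))
  rw [hB] at this
  simpa [runO] using this

/-- A pruning plan. -/
def plan (a b c d : Option (List (ZMod 5))) : List (Option (List (ZMod 5))) :=
  [a, b, c, none, none, none, none, none, none, none, none, none, d]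

/-- The plan for the first knot. -/
def planA (b : Bool) : List (Option (List (ZMod 5))) :=
  if b then plan (some [1]) (some [0, 1]) (some [0, 0, 1]) none
  else plan none (some [2, 4]) (some [0, 4, 2]) (some [0, 0, 4, 2])

/-- The plan for the second knot. -/
def planB (b : Bool) : List (Option (List (ZMod 5))) :=
  if b then plan none none (some [3, 3, 0]) (some [0, 1, 1, 4])
  else plan none (some [2, 4]) (some [0, 4, 2]) none

theorem countA : ∀ a : CA,
    5 ≤ ((runH (bodyA.zip (flags a.1)) (planA a.1) [a.2] [a, QA.bar a]).filter isS).length := by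
  decide +kernel

theorem countB : ∀ a : CA,
    25 ≤ ((runH (bodyB.zip (flags a.1)) (planB a.1) [a.2] [a, QA.bar a]).filter isS).length := by
  decide +kernel

theorem zipA : ∀ b, (bodyA.zip (flags b)).map Prod.fst = bodyA := by decide +kernel
theorem zipB : ∀ b, (bodyB.zip (flags b)).map Prod.fst = bodyB := by decide +kernel

theorem isKnot_of (p : ℕ) (B : List Gen) (hB : Tangle 2 B 2) (n m : ℕ)
    (h : Untwists p ((0, cup) :: tl B n) m) : IsKnot ((0, cup) :: tl B n) := by
  refine ⟨⟨by simp [win], tl_tangle B hB n⟩, ?_⟩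
  have := (untwists_bound p _ m h).1
  rwa [run_QB, Multiset.coe_card] at this

theorem pow_bound (n m : ℕ) (h : 10 * 5 ^ n ≤ 5 ^ m * 10) : n ≤ m :=
  (Nat.pow_le_pow_iff_right (by omega : 1 < 5)).1 (by omega)

theorem main (n : ℕ) : ∃ K K' : List Gen, IsKnot K ∧ IsKnot K' ∧ Mutant K K' ∧
    (∀ p, 2 ≤ p → IsLeast {m | Untwists p K m} n) ∧
    (∀ p, 1 ≤ p → IsLeast {m | Untwists p K' m} (2 * n)) := by
  refine ⟨(0, cup) :: tl bodyA n, (0, cup) :: tl bodyB n,
    isKnot_of 2 _ tangleA n n (upperA 2 le_rfl n), isKnot_of 1 _ tangleB' n _ (upperB 1 le_rfl n),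
    mutant_tl n [(0, cup)] (tangle_of_B _ _ _ (by decide)), fun p hp => ⟨upperA p hp n, ?_⟩,
    fun p hp => ⟨upperB p hp n, ?_⟩⟩
  · intro m hm
    exact pow_bound n m ((card_knot bodyA 5 (fun x => (countA x).trans
      (count_le _ _ (zipA _) _ _ _)) n).trans (untwists_bound p _ m hm).2)
  · intro m hm
    have := (card_knot bodyB 25 (fun x => (countB x).trans
      (count_le _ _ (zipB _) _ _ _)) n).trans (untwists_bound p _ m hm).2
    rw [show (25 : ℕ) = 5 ^ 2 from rfl, ← pow_mul] at this
    exact pow_bound _ m this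

end Pool.Agent.MP_ca7024_gt.H50
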