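import Pool.Agent.MP_ca7024_gt.H50.Col

/-! A checker for sequences of local moves on tangles with two ends at the top. -/

namespace Pool.Agent.MP_ca7024_gt.H50

open Kind

/-- One local move between tangles with no end at the bottom and two at the top. -/
def StepT (w w' : List Gen) : Prop :=
  Tangle 0 w 2 ∧ Tangle 0 w' 2 ∧ ∃ u l r v, Move l r ∧ w = u ++ l ++ v ∧ w' = u ++ r ++ v

theorem iso_of_eqvGen (w w' v : List Gen) (hv : Tangle 2 v 0) (h : Relation.EqvGen StepT w w') :
    Iso (w ++ v) (w' ++ v) := by
  induction h with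
  | rel x y h =>
    obtain ⟨h1, h2, u, l, r, t, hm, rfl, rfl⟩ := h
    refine Relation.EqvGen.rel _ _ ⟨(tangle_append _ _ _ _).2 ⟨2, h1, hv⟩,
      (tangle_append _ _ _ _).2 ⟨2, h2, hv⟩, u, l, r, t ++ v, hm, by simp, by simp⟩
  | refl x => exact Relation.EqvGen.refl _
  | symm x y _ ih => exact Relation.EqvGen.symm _ _ ih
  | trans x y z _ _ ih1 ih2 => exact Relation.EqvGen.trans _ _ _ ih1 ih2

/-- Boolean form of `Tangle`. -/
def tangleB : ℕ → List Gen → ℕ → Bool
  | a, [], b => a == b
  | a, g :: w, b => decide (g.1 + win g.2 ≤ a) && tangleB (a - win g.2 + wout g.2) w b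

theorem tangle_of_B (w : List Gen) (a b : ℕ) (h : tangleB a w b = true) : Tangle a w b := by
  induction w generalizing a with
  | nil => simpa [tangleB, Tangle] using h
  | cons g w ih =>
    simp only [tangleB, Bool.and_eq_true, decide_eq_true_eq] at h
    exact ⟨h.1, ih _ h.2⟩

/-- Decoding of a kind. -/
def kd : ℕ → Kind
  | 0 => cup | 1 => cap | 2 => ov | _ => un

/-- Decoding of a move. -/
def mv (t p q : ℕ) (k l : Kind) (a b c : Bool) : List Gen × List Gen :=
  match t with
  | 0 => if p + win k ≤ q then ([(q, l), (p, k)], [(p, k), (q - win k + wout k, l)])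
      else ([(p, cup), (p + 1, cap)], [])
  | 1 => ([(p, cup), (p + 1, cap)], [])
  | 2 => ([(p + 1, cup), (p, cap)], [])
  | 3 => ([(p, cup), (p, cr a)], [(p, cup)])
  | 4 => ([(p, cr a), (p, cap)], [(p, cap)])
  | 5 => ([(p, cr a), (p, cr !a)], [])
  | 6 => if a = c → b = a then
      ([(p, cr a), (p + 1, cr b), (p, cr c)], [(p + 1, cr c), (p, cr b), (p + 1, cr a)])
      else ([(p, cup), (p + 1, cap)], [])
  | 7 => ([(p + 1, cup), (p, cr a)], [(p, cup), (p + 1, cr !a)])
  | _ => ([(p, cr a), (p + 1, cap)], [(p + 1, cr !a), (p, cap)])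

theorem mv_move (t p q : ℕ) (k l : Kind) (a b c : Bool) :
    Move (mv t p q k l a b c).1 (mv t p q k l a b c).2 := by
  unfold mv
  split
  · split_ifs with h
    · exact Move.far p q k l h
    · exact Move.zig p
  · exact Move.zig p
  · exact Move.zag p
  · exact Move.r1cup p a
  · exact Move.r1cap p a
  · exact Move.r2 p a
  · split_ifs with h
    · exact Move.r3 p a b c h
    · exact Move.zig p
  · exact Move.pcup p a
  · exact Move.pcap p a

/-- The move coded by a number. -/
def dec (n : ℕ) : List Gen × List Gen :=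
  mv (n / 2 % 16) (n / 32 % 16) (n / 512 % 16) (kd (n / 8192 % 4)) (kd (n / 32768 % 4))
    (n / 8192 % 2 == 1) (n / 16384 % 2 == 1) (n / 32768 % 2 == 1)

/-- Replace `l` by `r` at place `i`. -/
def repl (w : List Gen) (i : ℕ) (l r : List Gen) : Option (List Gen) :=
  if (w.drop i).take l.length = l then some (w.take i ++ r ++ (w.drop i).drop l.length) else none

theorem repl_spec (w : List Gen) (i : ℕ) (l r w' : List Gen) (h : repl w i l r = some w') :
    ∃ u v, w = u ++ l ++ v ∧ w' = u ++ r ++ v := by
  unfold repl at h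
  split_ifs at h with h1
  refine ⟨w.take i, (w.drop i).drop l.length, ?_, (Option.some.inj h).symm⟩
  conv_rhs => lhs; rhs; rw [← h1]
  rw [List.append_assoc, List.take_append_drop, List.take_append_drop]

/-- Apply a coded move. -/
def app (w : List Gen) (n : ℕ) : Option (List Gen) :=
  if n % 2 = 1 then repl w (n / 131072) (dec n).1 (dec n).2
  else repl w (n / 131072) (dec n).2 (dec n).1

/-- Check a sequence of coded moves. -/
def chk : List ℕ → List Gen → List Gen → Bool
  | [], w, t => decide (w = t)
  | n :: ns, w, t => match app w n with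
    | none => false
    | some w' => tangleB 0 w' 2 && chk ns w' t

theorem chk_sound (ns : List ℕ) (w t : List Gen) (hw : Tangle 0 w 2) (h : chk ns w t = true) :
    Relation.EqvGen StepT w t := by
  induction ns generalizing w with
  | nil =>
    simp only [chk, decide_eq_true_eq] at h
    subst h
    exact Relation.EqvGen.refl _
  | cons n ns ih =>
    simp only [chk] at h
    split at h
    · simp at h
    · rename_i w' hw'
      simp only [Bool.and_eq_true] at h
      have h1 := tangle_of_B _ _ _ h.1
      refine Relation.EqvGen.trans _ w' _ ?_ (ih w' h1 h.2)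
      unfold app at hw'
      split_ifs at hw'
      · obtain ⟨u, v, e1, e2⟩ := repl_spec _ _ _ _ _ hw'
        exact Relation.EqvGen.rel _ _ ⟨hw, h1, u, _, _, v, mv_move _ _ _ _ _ _ _ _, e1, e2⟩
      · obtain ⟨u, v, e1, e2⟩ := repl_spec _ _ _ _ _ hw'
        exact Relation.EqvGen.symm _ _
          (Relation.EqvGen.rel _ _ ⟨h1, hw, u, _, _, v, mv_move _ _ _ _ _ _ _ _, e2, e1⟩)

end Pool.Agent.MP_ca7024_gt.H50
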