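import Pool.Agent.MP_ca7024_gt.H50.Defs

/-! Colourings of sliced diagrams by a finite symmetric quandle and their invariance. -/

set_option linter.unusedSimpArgs false
set_option linter.unusedSectionVars false

namespace Pool.Agent.MP_ca7024_gt.H50

open Kind

/-- A quandle with a good involution. -/
structure SQ (C : Type) where
  bar : C → C
  act : C → C → C
  bar_bar : ∀ a, bar (bar a) = a
  act_bar : ∀ a b, act a (bar b) = bar (act a b)
  act_inv : ∀ a b, act (bar a) (act a b) = b
  idem : ∀ a, act a a = a
  dist : ∀ a b c, act a (act b c) = act (act a b) (act a c)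

variable {C : Type} [Fintype C] [DecidableEq C] (Q : SQ C)

omit [Fintype C] [DecidableEq C] in
theorem SQ.act_inv' (a b : C) : Q.act a (Q.act (Q.bar a) b) = b := by
  have := Q.act_inv (Q.bar a) b
  rwa [Q.bar_bar] at this

/-- The colourings above an elementary tangle. -/
def step : ℕ → Kind → List C → Multiset (List C)
  | 0, cup, s => (Finset.univ.val : Multiset C).map fun c => c :: Q.bar c :: s
  | 0, cap, a :: b :: s => if b = Q.bar a then {s} else 0
  | 0, ov, a :: b :: s => {Q.act a b :: a :: s}
  | 0, un, a :: b :: s => {b :: Q.act (Q.bar b) a :: s}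
  | p + 1, k, a :: s => (step p k s).map (a :: ·)
  | _, _, _ => 0

/-- The colourings at the top of a word. -/
def run : List Gen → List C → Multiset (List C)
  | [], s => {s}
  | g :: w, s => (step Q g.1 g.2 s).bind (run w)

@[simp] theorem step_cup (s : List C) :
    step Q 0 cup s = (Finset.univ.val : Multiset C).map fun c => c :: Q.bar c :: s := by
  cases s <;> rfl
@[simp] theorem step_cap (a b : C) (s : List C) :
    step Q 0 cap (a :: b :: s) = if b = Q.bar a then {s} else 0 := rfl
@[simp] theorem step_ov (a b : C) (s : List C) :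
    step Q 0 ov (a :: b :: s) = {Q.act a b :: a :: s} := rfl
@[simp] theorem step_un (a b : C) (s : List C) :
    step Q 0 un (a :: b :: s) = {b :: Q.act (Q.bar b) a :: s} := rfl
@[simp] theorem step_succ (p : ℕ) (k : Kind) (a : C) (s : List C) :
    step Q (p + 1) k (a :: s) = (step Q p k s).map (a :: ·) := by cases k <;> rfl
@[simp] theorem step_succ_nil (p : ℕ) (k : Kind) : step Q (p + 1) k [] = 0 := by cases k <;> rfl
@[simp] theorem step_cap_nil : step Q 0 cap [] = 0 := rfl
@[simp] theorem step_ov_nil : step Q 0 ov [] = 0 := rfl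
@[simp] theorem step_un_nil : step Q 0 un [] = 0 := rfl
@[simp] theorem step_cap_one (a : C) : step Q 0 cap [a] = 0 := rfl
@[simp] theorem step_ov_one (a : C) : step Q 0 ov [a] = 0 := rfl
@[simp] theorem step_un_one (a : C) : step Q 0 un [a] = 0 := rfl
@[simp] theorem run_nil (s : List C) : run Q [] s = {s} := rfl
@[simp] theorem run_cons (g : Gen) (w : List Gen) (s : List C) :
    run Q (g :: w) s = (step Q g.1 g.2 s).bind (run Q w) := rfl

@[simp] theorem step_one (k : Kind) (a : C) (s : List C) :
    step Q 1 k (a :: s) = (step Q 0 k s).map (a :: ·) := step_succ Q 0 k a s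
@[simp] theorem step_one_nil (k : Kind) : step Q 1 k [] = 0 := step_succ_nil Q 0 k
@[simp] theorem bind_single {β : Type} (m : Multiset β) : m.bind (fun a => {a}) = m := by
  rw [Multiset.bind_singleton]; simp

theorem run_append (u v : List Gen) (s : List C) :
    run Q (u ++ v) s = (run Q u s).bind (run Q v) := by
  induction u generalizing s with
  | nil => simp
  | cons g u ih =>
    simp only [List.cons_append, run_cons, Multiset.bind_assoc]
    exact Multiset.bind_congr fun r _ => ih r

theorem len_step (p : ℕ) (k : Kind) (s r : List C) (h : r ∈ step Q p k s) :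
    p + win k ≤ s.length ∧ r.length = s.length - win k + wout k := by
  induction p generalizing s r with
  | zero =>
    cases k
    · simp only [step_cup, Multiset.mem_map] at h
      obtain ⟨c, -, rfl⟩ := h
      simp [win, wout]
    all_goals
      rcases s with _ | ⟨a, _ | ⟨b, s⟩⟩ <;> simp at h
    · split_ifs at h <;> simp at h
      subst h; simp [win, wout]
    · subst h; simp [win, wout]
    · subst h; simp [win, wout]
  | succ p ih =>
    rcases s with _ | ⟨a, s⟩
    · simp at h
    · simp only [step_succ, Multiset.mem_map] at h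
      obtain ⟨r', h', rfl⟩ := h
      obtain ⟨h1, h2⟩ := ih s r' h'
      simp only [List.length_cons]
      omega

theorem tangle_of_mem (w : List Gen) (s r : List C) (h : r ∈ run Q w s) :
    Tangle s.length w r.length := by
  induction w generalizing s with
  | nil => simp at h; subst h; rfl
  | cons g w ih =>
    simp only [run_cons, Multiset.mem_bind] at h
    obtain ⟨t, ht, hr⟩ := h
    obtain ⟨h1, h2⟩ := len_step Q _ _ _ _ ht
    exact ⟨h1, h2 ▸ ih t hr⟩

omit [Fintype C] [DecidableEq C] in
theorem tangle_unique (w : List Gen) (a b c : ℕ) (h : Tangle a w b) (h' : Tangle a w c) :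
    b = c := by
  induction w generalizing a with
  | nil => exact h.symm.trans h'
  | cons g w ih => exact ih _ h.2 h'.2

theorem tangle_append (u v : List Gen) (a c : ℕ) :
    Tangle a (u ++ v) c ↔ ∃ b, Tangle a u b ∧ Tangle b v c := by
  induction u generalizing a with
  | nil => simp [Tangle]
  | cons g u ih =>
    simp only [List.cons_append, Tangle, ih]
    constructor
    · rintro ⟨h, b, h1, h2⟩; exact ⟨b, ⟨h, h1⟩, h2⟩
    · rintro ⟨b, ⟨h, h1⟩, h2⟩; exact ⟨h, b, h1, h2⟩

theorem run_sh_one (l : List Gen) (p : ℕ) (a : C) (s : List C) :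
    run Q (sh (p + 1) l) (a :: s) = (run Q (sh p l) s).map (a :: ·) := by
  induction l generalizing s with
  | nil => simp [sh]
  | cons g l ih =>
    have e1 : sh (p + 1) (g :: l) = (g.1 + p + 1, g.2) :: sh (p + 1) l := rfl
    have e2 : sh p (g :: l) = (g.1 + p, g.2) :: sh p l := rfl
    rw [e1, e2, run_cons, run_cons, step_succ, Multiset.bind_map, Multiset.map_bind]
    exact Multiset.bind_congr fun r _ => ih r

theorem sh_zero (l : List Gen) : sh 0 l = l := by simp [sh]

theorem run_sh_eq (l r : List Gen) (n : ℕ) (h : ∀ s, n ≤ s.length → run Q l s = run Q r s)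
    (p : ℕ) (s : List C) (hs : p + n ≤ s.length) : run Q (sh p l) s = run Q (sh p r) s := by
  induction p generalizing s with
  | zero => rw [sh_zero, sh_zero]; exact h s (by omega)
  | succ p ih =>
    rcases s with _ | ⟨a, s⟩
    · simp at hs
    · rw [run_sh_one, run_sh_one, ih s (by simp at hs; omega)]

theorem bind_univ_ite {β : Type} (f : C → Multiset β) (a : C) (P : C → Prop) [DecidablePred P]
    (h : ∀ c, P c ↔ c = a) :
    (Finset.univ.val : Multiset C).bind (fun c => if P c then f c else 0) = f a := by
  have : (Finset.univ.val : Multiset C).bind (fun c => if P c then f c else 0)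
      = ∑ c, if P c then f c else 0 := rfl
  rw [this]
  simp [h]

theorem univ_map_equiv {β : Type} (e : C ≃ C) (f : C → β) :
    (Finset.univ.val : Multiset C).map (fun c => f (e c)) = (Finset.univ.val : Multiset C).map f := by
  conv_rhs => rw [← Multiset.map_univ_val_equiv e, Multiset.map_map]
  rfl

/-- The involution as a permutation. -/
def SQ.barE : C ≃ C := ⟨Q.bar, Q.bar, Q.bar_bar, Q.bar_bar⟩

/-- The action as a permutation. -/
def SQ.actE (a : C) : C ≃ C := ⟨Q.act a, Q.act (Q.bar a), Q.act_inv a, Q.act_inv' a⟩

theorem far_eq (p q : ℕ) (k l : Kind) (h : p + win k ≤ q) (s : List C) :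
    run Q [(q, l), (p, k)] s = run Q [(p, k), (q - win k + wout k, l)] s := by
  induction p generalizing q s with
  | zero =>
    cases k
    · have e : q - win cup + wout cup = q + 1 + 1 := by simp [win, wout]
      rw [e]
      simp only [run_cons, run_nil, Multiset.bind_singleton, step_cup, Multiset.bind_map,
        step_succ, Multiset.map_map, Function.comp_def]
      simp only [← Multiset.bind_singleton]
      rw [Multiset.bind_bind]
    all_goals
      obtain ⟨q, rfl⟩ : ∃ q', q = q' + 1 + 1 := ⟨q - 2, by simp [win] at h; omega⟩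
      rcases s with _ | ⟨a, _ | ⟨b, s⟩⟩
      · simp
      · simp
      · simp [win, wout, Multiset.bind_map, Multiset.bind_singleton]
        try (split_ifs <;> simp [Multiset.bind_singleton])
  | succ p ih =>
    obtain ⟨q, rfl⟩ : ∃ q', q = q' + 1 := ⟨q - 1, by omega⟩
    have e : q + 1 - win k + wout k = (q - win k + wout k) + 1 := by omega
    rw [e]
    rcases s with _ | ⟨a, s⟩
    · simp
    · have h1 := run_sh_one Q [(q, l), (p, k)] 0 a s
      have h2 := run_sh_one Q [(p, k), (q - win k + wout k, l)] 0 a s
      simp only [sh, List.map_cons, List.map_nil, Nat.zero_add, Nat.add_zero] at h1 h2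
      rw [h1, h2, ih q (by omega) s]

theorem zig0 (s : List C) (h : 1 ≤ s.length) : run Q [(0, cup), (1, cap)] s = run Q [] s := by
  rcases s with _ | ⟨a, s⟩
  · simp at h
  · simp only [run_cons, run_nil, step_cup, Multiset.bind_map]
    have : ∀ c, step Q 1 cap (c :: Q.bar c :: a :: s) = if c = a then {c :: s} else 0 := by
      intro c
      rw [show (1 : ℕ) = 0 + 1 from rfl, step_succ, step_cap, Q.bar_bar]
      by_cases hc : c = a
      · simp [hc]
      · simp [hc, Ne.symm hc]
    simp only [this, bind_single]
    exact bind_univ_ite (fun c => {c :: s}) a _ (fun c => Iff.rfl)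

theorem zag0 (s : List C) (h : 1 ≤ s.length) : run Q [(1, cup), (0, cap)] s = run Q [] s := by
  rcases s with _ | ⟨a, s⟩
  · simp at h
  · rw [show (1 : ℕ) = 0 + 1 from rfl]
    simp only [run_cons, run_nil, step_cup, step_succ, Multiset.bind_map, step_cap, bind_single]
    rw [bind_univ_ite (fun c => {Q.bar c :: s}) (Q.bar a) _ (fun c => Iff.rfl), Q.bar_bar]

theorem r1cup0 (a : Bool) (s : List C) : run Q [(0, cup), (0, cr a)] s = run Q [(0, cup)] s := by
  cases a
  · simp only [cr, run_cons, run_nil, Multiset.bind_singleton, step_cup, Multiset.bind_map,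
      Multiset.map_id', Bool.false_eq_true, if_false, step_un, Q.bar_bar, Q.idem]
    rw [← univ_map_equiv Q.barE (fun c => c :: Q.bar c :: s)]
    simp [SQ.barE, Q.bar_bar]
  · simp only [cr, run_cons, run_nil, Multiset.bind_singleton, step_cup, Multiset.bind_map,
      Multiset.map_id', if_true, step_ov, Q.act_bar, Q.idem]
    rw [← univ_map_equiv Q.barE (fun c => c :: Q.bar c :: s)]
    simp [SQ.barE, Q.bar_bar]

omit [Fintype C] [DecidableEq C] in
theorem SQ.act_inj (a b c : C) : Q.act a b = Q.act a c ↔ b = c := (Q.actE a).injective.eq_iff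

omit [Fintype C] [DecidableEq C] in
theorem SQ.bar_inj (b c : C) : Q.bar b = Q.bar c ↔ b = c := (Q.barE).injective.eq_iff

theorem r1cap0 (a : Bool) (s : List C) : run Q [(0, cr a), (0, cap)] s = run Q [(0, cap)] s := by
  rcases s with _ | ⟨x, _ | ⟨y, s⟩⟩
  · cases a <;> simp [cr]
  · cases a <;> simp [cr]
  · cases a
    · have : Q.act (Q.bar y) x = Q.bar y ↔ y = Q.bar x := by
        conv_lhs => rhs; rw [← Q.idem (Q.bar y)]
        rw [Q.act_inj]
        constructor
        · rintro rfl; rw [Q.bar_bar]
        · rintro rfl; rw [Q.bar_bar]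
      simp [cr, this]
    · have : x = Q.bar (Q.act x y) ↔ y = Q.bar x := by
        rw [← Q.act_bar]
        conv_lhs => lhs; rw [← Q.idem x]
        rw [Q.act_inj]
        constructor
        · rintro rfl; rw [Q.bar_bar]
        · rintro rfl; rw [Q.bar_bar]
      simp [cr, this]

theorem r2_0 (a : Bool) (s : List C) (h : 2 ≤ s.length) :
    run Q [(0, cr a), (0, cr !a)] s = run Q [] s := by
  rcases s with _ | ⟨x, _ | ⟨y, s⟩⟩
  · simp at h
  · simp at h
  · cases a <;> simp [cr, Q.act_inv, Q.act_inv']

theorem r3_0 (a b c : Bool) (h : a = c → b = a) (s : List C) :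
    run Q [(0, cr a), (1, cr b), (0, cr c)] s = run Q [(1, cr c), (0, cr b), (1, cr a)] s := by
  rw [show (1 : ℕ) = 0 + 1 from rfl]
  rcases s with _ | ⟨x, _ | ⟨y, _ | ⟨z, s⟩⟩⟩
  · cases a <;> cases b <;> cases c <;> simp [cr]
  · cases a <;> cases b <;> cases c <;> simp [cr]
  · cases a <;> cases b <;> cases c <;> simp [cr]
  · cases a <;> cases b <;> cases c <;> simp [cr] at h ⊢
    · rw [Q.dist, Q.act_bar]
    · conv_rhs => rw [Q.dist, Q.act_bar, Q.act_inv]
    · rw [Q.dist, Q.act_inv']
    · exact Q.dist _ _ _
    · conv_rhs => rw [Q.dist, Q.act_bar]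
    · exact (Q.dist _ _ _).symm

theorem pcup0 (a : Bool) (s : List C) :
    run Q [(1, cup), (0, cr a)] s = run Q [(0, cup), (1, cr !a)] s := by
  rw [show (1 : ℕ) = 0 + 1 from rfl]
  rcases s with _ | ⟨x, s⟩
  · cases a <;> simp [cr, Multiset.bind_map]
  · cases a
    · simp [cr, Multiset.bind_map, Multiset.bind_singleton]
    · simp [cr, Multiset.bind_map, Multiset.bind_singleton]
      rw [← univ_map_equiv (Q.actE x) (fun c => c :: x :: Q.act (Q.bar x) (Q.bar c) :: s)]
      simp [SQ.actE, Q.act_bar, Q.act_inv]

theorem pcap0 (a : Bool) (s : List C) :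
    run Q [(0, cr a), (1, cap)] s = run Q [(1, cr !a), (0, cap)] s := by
  rw [show (1 : ℕ) = 0 + 1 from rfl]
  rcases s with _ | ⟨x, _ | ⟨y, _ | ⟨z, s⟩⟩⟩
  · cases a <;> simp [cr]
  · cases a <;> simp [cr]
  · cases a <;> simp [cr]
  · cases a <;> simp [cr]
    · have : z = Q.bar (Q.act (Q.bar y) x) ↔ Q.act y z = Q.bar x := by
        constructor
        · rintro rfl; rw [Q.act_bar, Q.act_inv']
        · intro h; rw [← Q.act_bar, ← h, Q.act_inv]
      simp only [this]
      split_ifs <;> simp
    · split_ifs with h
      · subst h; simp [Q.bar_bar]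
      · simp

theorem move_eq (l r : List Gen) (h : Move l r) (s : List C) (b : ℕ)
    (hl : Tangle s.length l b) : run Q l s = run Q r s := by
  cases h with
  | far p q k l h => exact far_eq Q p q k l h s
  | zig p =>
    have := run_sh_eq Q _ _ 1 (zig0 Q) p s (by simp [Tangle, win, wout] at hl; omega)
    simpa only [sh, List.map_cons, List.map_nil, Nat.zero_add, Nat.add_comm 1 p] using this
  | zag p =>
    have := run_sh_eq Q _ _ 1 (zag0 Q) p s (by simp [Tangle, win, wout] at hl; omega)
    simpa only [sh, List.map_cons, List.map_nil, Nat.zero_add, Nat.add_comm 1 p] using this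
  | r1cup p a =>
    have := run_sh_eq Q _ _ 0 (fun s _ => r1cup0 Q a s) p s
      (by simp [Tangle, win, wout] at hl; omega)
    simpa only [sh, List.map_cons, List.map_nil, Nat.zero_add, Nat.add_comm 1 p] using this
  | r1cap p a =>
    have := run_sh_eq Q _ _ 0 (fun s _ => r1cap0 Q a s) p s (by have := hl.1; simp at this; omega)
    simpa only [sh, List.map_cons, List.map_nil, Nat.zero_add, Nat.add_comm 1 p] using this
  | r2 p a =>
    have := run_sh_eq Q _ _ 2 (r2_0 Q a) p s
      (by have := hl.1; cases a <;> simp [cr, win] at this <;> omega)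
    simpa only [sh, List.map_cons, List.map_nil, Nat.zero_add, Nat.add_comm 1 p] using this
  | r3 p a b c h =>
    have := run_sh_eq Q _ _ 0 (fun s _ => r3_0 Q a b c h s) p s
      (by have := hl.1; simp at this; omega)
    simpa only [sh, List.map_cons, List.map_nil, Nat.zero_add, Nat.add_comm 1 p] using this
  | pcup p a =>
    have := run_sh_eq Q _ _ 0 (fun s _ => pcup0 Q a s) p s (by have := hl.1; simp at this; omega)
    simpa only [sh, List.map_cons, List.map_nil, Nat.zero_add, Nat.add_comm 1 p] using this
  | pcap p a =>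
    have := run_sh_eq Q _ _ 0 (fun s _ => pcap0 Q a s) p s (by have := hl.1; simp at this; omega)
    simpa only [sh, List.map_cons, List.map_nil, Nat.zero_add, Nat.add_comm 1 p] using this

theorem step_run_eq (w w' : List Gen) (h : Step w w') : run Q w [] = run Q w' [] := by
  obtain ⟨h1, -, u, l, r, v, hm, rfl, rfl⟩ := h
  rw [List.append_assoc, tangle_append] at h1
  obtain ⟨a, hu, h1⟩ := h1
  rw [tangle_append] at h1
  obtain ⟨b, hl, -⟩ := h1
  rw [run_append, run_append, run_append, run_append]
  congr 1
  refine Multiset.bind_congr fun s hs => move_eq Q l r hm s b ?_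
  have := tangle_unique u _ _ _ (tangle_of_mem Q u [] s hs) hu
  rwa [this]

theorem iso_run_eq (w w' : List Gen) (h : Iso w w') : run Q w [] = run Q w' [] := by
  induction h with
  | rel x y h => exact step_run_eq Q x y h
  | refl x => rfl
  | symm x y _ ih => exact ih.symm
  | trans x y z _ _ ih1 ih2 => exact ih1.trans ih2

/-- The row of crossings `σ₁ ⋯ σₘ`. -/
def row (m : ℕ) : List Gen := (List.range m).map fun i => (i, ov)

theorem run_row (W : List C) (a : C) (t : List C) :
    run Q (row W.length) (a :: (W ++ t)) = {W.map (Q.act a) ++ a :: t} := by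
  induction W with
  | nil => simp [row]
  | cons b W ih =>
    have e : row (b :: W).length = (0, ov) :: sh (0 + 1) (row W.length) := by
      simp [row, sh, List.range_succ_eq_map]
    rw [e, run_cons]
    simp only [List.cons_append, step_ov, Multiset.singleton_bind]
    rw [run_sh_one, sh_zero, ih]
    simp

omit [Fintype C] [DecidableEq C] in
theorem foldr_act (W : List C) (a b : C) :
    W.foldr Q.act (Q.act a b) = Q.act (W.foldr Q.act a) (W.foldr Q.act b) := by
  induction W with
  | nil => rfl
  | cons c W ih => simp only [List.foldr_cons, ih]; exact Q.dist _ _ _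

theorem run_row_pow (m : ℕ) (W₁ : List C) (t : List C) : ∀ W₂ : List C,
    W₁.length + W₂.length = m + 1 →
    run Q (List.replicate W₁.length (row m)).flatten (W₁ ++ W₂ ++ t) =
      {(W₂ ++ W₁).map (fun y => W₁.foldr Q.act y) ++ t} := by
  induction W₁ using List.reverseRecOn with
  | nil => intro W₂ _; simp
  | append_singleton W₁ a ih =>
    intro W₂ h
    have h' : W₁.length + (a :: W₂).length = m + 1 := by simp at h ⊢; omega
    have e : W₁ ++ [a] ++ W₂ ++ t = W₁ ++ (a :: W₂) ++ t := by simp
    rw [List.length_append, List.length_singleton, List.replicate_succ', List.flatten_append, e,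
      run_append, ih _ h', Multiset.singleton_bind]
    have hm : m = ((W₂ ++ W₁).map fun y => W₁.foldr Q.act y).length := by simp at h' ⊢; omega
    simp only [List.flatten_cons, List.flatten_nil, List.append_nil, List.cons_append,
      List.map_cons]
    conv_lhs => rw [hm]
    rw [run_row]
    simp [List.foldr_append, foldr_act, Q.idem, Function.comp_def]

theorem full_eq (n q : ℕ) : full n q = sh q (List.replicate n (row (n - 1))).flatten := by
  simp [full, sh, row, List.map_flatten, Function.comp_def]

theorem run_full (x W t : List C) :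
    run Q (full W.length x.length) (x ++ (W ++ t)) =
      {x ++ (W.map (fun y => W.foldr Q.act y) ++ t)} := by
  rw [full_eq]
  induction x with
  | nil =>
    rw [List.length_nil, sh_zero]
    rcases W with _ | ⟨a, W⟩
    · simp
    · have := run_row_pow Q W.length (a :: W) t [] (by simp)
      simpa using this
  | cons a x ih => rw [List.length_cons, List.cons_append, run_sh_one, ih]; simp

theorem run_full_fix (s : List C) (n q : ℕ) (h : q + n ≤ s.length)
    (hf : ∀ y, ((s.drop q).take n).foldr Q.act y = y) : run Q (full n q) s = {s} := by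
  have e : s = s.take q ++ ((s.drop q).take n ++ (s.drop q).drop n) := by simp
  have := run_full Q (s.take q) ((s.drop q).take n) ((s.drop q).drop n)
  rw [show (s.take q).length = q by simp; omega,
    show ((s.drop q).take n).length = n by simp; omega, ← e] at this
  rw [this]
  simp only [hf, List.map_id']
  rw [← e]

/-- Homomorphisms send colourings to colourings. -/
theorem step_hom {D : Type} [Fintype D] [DecidableEq D] (P : SQ D) (f : C → D)
    (hb : ∀ a, f (Q.bar a) = P.bar (f a)) (ha : ∀ a b, f (Q.act a b) = P.act (f a) (f b))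
    (p : ℕ) (k : Kind) (s r : List C) (h : r ∈ step Q p k s) : r.map f ∈ step P p k (s.map f) := by
  induction p generalizing s r with
  | zero =>
    cases k
    · simp only [step_cup, Multiset.mem_map] at h ⊢
      obtain ⟨c, -, rfl⟩ := h
      exact ⟨f c, by simp, by simp [hb]⟩
    all_goals
      rcases s with _ | ⟨a, _ | ⟨b, s⟩⟩ <;> simp at h
    · split_ifs at h with h' <;> simp at h
      subst h; subst h'; simp [hb]
    · subst h; simp [ha]
    · subst h; simp [ha, hb]
  | succ p ih =>
    rcases s with _ | ⟨a, s⟩
    · simp at h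
    · simp only [step_succ, Multiset.mem_map, List.map_cons] at h ⊢
      obtain ⟨r', h', rfl⟩ := h
      exact ⟨_, ih s r' h', rfl⟩

theorem run_hom {D : Type} [Fintype D] [DecidableEq D] (P : SQ D) (f : C → D)
    (hb : ∀ a, f (Q.bar a) = P.bar (f a)) (ha : ∀ a b, f (Q.act a b) = P.act (f a) (f b))
    (w : List Gen) (s r : List C) (h : r ∈ run Q w s) : r.map f ∈ run P w (s.map f) := by
  induction w generalizing s with
  | nil => simp at h ⊢; rw [h]
  | cons g w ih =>
    simp only [run_cons, Multiset.mem_bind] at h ⊢
    obtain ⟨t, ht, hr⟩ := h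
    exact ⟨_, step_hom Q P f hb ha _ _ _ _ ht, ih t hr⟩

/-- Directions. -/
def QB : SQ Bool where
  bar := not
  act := fun _ b => b
  bar_bar := by simp
  act_bar := by simp
  act_inv := by simp
  idem := by simp
  dist := by simp

theorem step_QB (p : ℕ) (k : Kind) (o : List Bool) : step QB p k o = ↑(dirs p k o) := by
  induction p generalizing o with
  | zero =>
    cases k
    · rw [step_cup]; cases o <;> rfl
    all_goals
      rcases o with _ | ⟨a, _ | ⟨b, s⟩⟩
      · rfl
      · rfl
    · cases a <;> cases b <;> simp [dirs, QB]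
    · simp [dirs, QB]
    · simp [dirs, QB]
  | succ p ih =>
    rcases o with _ | ⟨a, s⟩
    · cases k <;> rfl
    · rw [step_succ, ih]; cases k <;> rfl

theorem run_QB (w : List Gen) (o : List Bool) : run QB w o = ↑(orients w o) := by
  induction w generalizing o with
  | nil => rfl
  | cons g w ih =>
    rw [run_cons, step_QB, orients, ← Multiset.coe_bind]
    exact Multiset.bind_congr fun r _ => ih r

end Pool.Agent.MP_ca7024_gt.H50
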