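import Mathlib

/-!
Knots as sliced diagrams.  A diagram is a word of elementary tangles read from bottom to top;
between two letters it meets a horizontal line in finitely many points, numbered from `0`,
left to right.  Isotopy classes of tangles are the words modulo the moves of `Move`
(Turaev, Freyd and Yetter).
-/

namespace Pool.Agent.MP_ca7024_gt.H50

/-- Elementary tangles: a minimum, a maximum, and a crossing in which the strand coming from the
bottom left passes over (`ov`) or under (`un`). -/
inductive Kind
  | cup | cap | ov | un
  deriving DecidableEq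

open Kind

/-- An elementary tangle with the position of its leftmost strand; all other strands are
vertical. -/
abbrev Gen := ℕ × Kind

/-- Number of ends of an elementary tangle at the bottom. -/
def win : Kind → ℕ
  | cup => 0 | cap => 2 | ov => 2 | un => 2

/-- Number of ends of an elementary tangle at the top. -/
def wout : Kind → ℕ
  | cup => 2 | cap => 0 | ov => 2 | un => 2

/-- `Tangle a w b`: the word `w` is a tangle diagram with `a` ends at the bottom and `b` at the
top. -/
def Tangle : ℕ → List Gen → ℕ → Prop
  | a, [], b => a = b
  | a, g :: w, b => g.1 + win g.2 ≤ a ∧ Tangle (a - win g.2 + wout g.2) w b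

/-- `ov` or `un`. -/
def cr (b : Bool) : Kind := if b then ov else un

/-- The local isotopy moves: distant letters commute, zigzags, Reidemeister I, II and III, a
strand passes a minimum or a maximum. -/
inductive Move : List Gen → List Gen → Prop
  | far (p q : ℕ) (k l : Kind) (h : p + win k ≤ q) :
      Move [(q, l), (p, k)] [(p, k), (q - win k + wout k, l)]
  | zig (p : ℕ) : Move [(p, cup), (p + 1, cap)] []
  | zag (p : ℕ) : Move [(p + 1, cup), (p, cap)] []
  | r1cup (p : ℕ) (a : Bool) : Move [(p, cup), (p, cr a)] [(p, cup)]
  | r1cap (p : ℕ) (a : Bool) : Move [(p, cr a), (p, cap)] [(p, cap)]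
  | r2 (p : ℕ) (a : Bool) : Move [(p, cr a), (p, cr !a)] []
  | r3 (p : ℕ) (a b c : Bool) (h : a = c → b = a) :
      Move [(p, cr a), (p + 1, cr b), (p, cr c)] [(p + 1, cr c), (p, cr b), (p + 1, cr a)]
  | pcup (p : ℕ) (a : Bool) : Move [(p + 1, cup), (p, cr a)] [(p, cup), (p + 1, cr !a)]
  | pcap (p : ℕ) (a : Bool) : Move [(p, cr a), (p + 1, cap)] [(p + 1, cr !a), (p, cap)]

/-- Two link diagrams differ by one local move. -/
def Step (w w' : List Gen) : Prop :=
  Tangle 0 w 0 ∧ Tangle 0 w' 0 ∧ ∃ u l r v, Move l r ∧ w = u ++ l ++ v ∧ w' = u ++ r ++ v

/-- Isotopy of link diagrams. -/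
def Iso : List Gen → List Gen → Prop := Relation.EqvGen Step

/-- The round circle. -/
def unknot : List Gen := [(0, cup), (0, cap)]

/-- The possible directions (`true` up, `false` down) of the strands above an elementary tangle,
given those below it. -/
def dirs : ℕ → Kind → List Bool → List (List Bool)
  | 0, cup, o => [true :: false :: o, false :: true :: o]
  | 0, cap, a :: b :: o => if a = b then [] else [o]
  | 0, ov, a :: b :: o => [b :: a :: o]
  | 0, un, a :: b :: o => [b :: a :: o]
  | p + 1, k, a :: o => (dirs p k o).map (a :: ·)
  | _, _, _ => []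

/-- One entry for each orientation of the tangle `w` that extends the directions `o` at its bottom;
the entry is the list of directions at its top. -/
def orients : List Gen → List Bool → List (List Bool)
  | [], o => [o]
  | g :: w, o => (dirs g.1 g.2 o).flatMap (orients w)

/-- A knot diagram: a link diagram with exactly two orientations (a link with `c` components
has `2 ^ c`). -/
def IsKnot (w : List Gen) : Prop := Tangle 0 w 0 ∧ (orients w []).length = 2

/-- The word `T` moved `p` places to the right. -/
def sh (p : ℕ) (T : List Gen) : List Gen := T.map fun g => (g.1 + p, g.2)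

/-- Rotation by `π` about the vertical axis of a tangle with `a` ends at the bottom. -/
def rotV : ℕ → List Gen → List Gen
  | _, [] => []
  | a, g :: w => (a - win g.2 - g.1, g.2) :: rotV (a - win g.2 + wout g.2) w

/-- A minimum upside down is a maximum; a crossing keeps its kind. -/
def vflip : Kind → Kind
  | cup => cap | cap => cup | ov => ov | un => un

/-- Rotation by `π` about the horizontal axis. -/
def rotH (T : List Gen) : List Gen := T.reverse.map fun g => (g.1, vflip g.2)

/-- One Conway mutation: a box `T` with two ends at the bottom and two at the top is replaced by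
its image under one of the three rotations by `π`. -/
def Mutation (w w' : List Gen) : Prop :=
  ∃ u T T' v a p, Tangle 0 u a ∧ p + 2 ≤ a ∧ Tangle 2 T 2 ∧ Tangle a v 0 ∧
    (T' = rotV 2 T ∨ T' = rotH T ∨ T' = rotV 2 (rotH T)) ∧
    w = u ++ sh p T ++ v ∧ w' = u ++ sh p T' ++ v

/-- Mutants: related by finitely many mutations and isotopies. -/
def Mutant : List Gen → List Gen → Prop :=
  Relation.ReflTransGen fun w w' => Iso w w' ∨ Mutation w w'

/-- The full twist `(σ₁ ⋯ σₙ₋₁)ⁿ` on the `n` strands at positions `q, …, q + n - 1`. -/
def full (n q : ℕ) : List Gen :=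
  (List.replicate n ((List.range (n - 1)).map fun i => (i + q, ov))).flatten

/-- A null-homologous generalized crossing change on at most `2 p` strands: a full twist is
inserted on, or removed from, `n ≤ 2 p` adjacent strands of which as many point up as down. -/
def Twist (p : ℕ) (w w' : List Gen) : Prop :=
  ∃ u v o n q, o ∈ orients u [] ∧ [] ∈ orients v o ∧ n ≤ 2 * p ∧ q + n ≤ o.length ∧
    ((o.drop q).take n).count true = ((o.drop q).take n).count false ∧
    ((w = u ++ v ∧ w' = u ++ full n q ++ v) ∨ (w = u ++ full n q ++ v ∧ w' = u ++ v))

/-- `Untwists p w m`: the diagram `w` is turned into the unknot by `m` such twists, interspersed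
with isotopies. -/
inductive Untwists (p : ℕ) : List Gen → ℕ → Prop
  | zero (w : List Gen) : Iso w unknot → Untwists p w 0
  | succ (w w₁ w₂ : List Gen) (m : ℕ) :
      Iso w w₁ → Twist p w₁ w₂ → Untwists p w₂ m → Untwists p w (m + 1)

end Pool.Agent.MP_ca7024_gt.H50
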