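import Pool.Agent.MP_ca7024_gt.H50.Col

/-! Alexander colourings over `ZMod 5` at `t = 2`: a null-homologous twist divides their number
by at most `5`. -/

set_option linter.unusedSimpArgs false

namespace Pool.Agent.MP_ca7024_gt.H50

open Kind

/-- A direction and a colour. -/
abbrev CA := Bool × ZMod 5

/-- The multiplier of a strand. -/
def mu (b : Bool) : ZMod 5 := if b then 2 else 3

/-- The Alexander quandle with directions. -/
def QA : SQ CA where
  bar := fun a => (!a.1, a.2)
  act := fun a b => (b.1, a.2 + mu a.1 * (b.2 - a.2))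
  bar_bar := by simp
  act_bar := by simp
  act_inv := by decide
  idem := by simp
  dist := by
    rintro ⟨a, x⟩ ⟨b, y⟩ ⟨c, z⟩
    simp only [Prod.mk.injEq, true_and]
    ring

/-- The directions of a coloured slice. -/
def shape (s : List CA) : List Bool := s.map Prod.fst

/-- Difference of colours. -/
def sub (s t : List CA) : List CA := List.zipWith (fun a b => (a.1, a.2 - b.2)) s t

/-- The colourings above an elementary tangle, with the direction `b` at a minimum. -/
def stepL (b : Bool) : ℕ → Kind → List CA → List (List CA)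
  | 0, cup, s => [0, 1, 2, 3, 4].map fun x : ZMod 5 => (b, x) :: (!b, x) :: s
  | 0, cap, a :: c :: s => if c = QA.bar a then [s] else []
  | 0, ov, a :: c :: s => [QA.act a c :: a :: s]
  | 0, un, a :: c :: s => [c :: QA.act (QA.bar c) a :: s]
  | p + 1, k, a :: s => (stepL b p k s).map (a :: ·)
  | _, _, _ => []

/-- The colourings at the top of an oriented word. -/
def runL : List (Gen × Bool) → List CA → List (List CA)
  | [], s => [s]
  | g :: w, s => (stepL g.2 g.1.1 g.1.2 s).flatMap (runL w)

/-- The same as a multiset. -/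
def runO (w : List (Gen × Bool)) (s : List CA) : Multiset (List CA) := runL w s

/-- The same as a multiset. -/
def stepO (b : Bool) (p : ℕ) (k : Kind) (s : List CA) : Multiset (List CA) := stepL b p k s

theorem runO_nil (s : List CA) : runO [] s = {s} := rfl
theorem runO_cons (g : Gen × Bool) (w : List (Gen × Bool)) (s : List CA) :
    runO (g :: w) s = (stepO g.2 g.1.1 g.1.2 s).bind (runO w) := by
  simp only [runO, stepO, runL, ← Multiset.coe_bind]
  try rfl

theorem runO_append (u v : List (Gen × Bool)) (s : List CA) :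
    runO (u ++ v) s = (runO u s).bind (runO v) := by
  induction u generalizing s with
  | nil => simp [runO_nil]
  | cons g u ih =>
    simp only [List.cons_append, runO_cons, Multiset.bind_assoc]
    exact Multiset.bind_congr fun r _ => ih r

theorem five : (↑([0, 1, 2, 3, 4] : List (ZMod 5)) : Multiset (ZMod 5)) = Finset.univ.val := by
  decide

@[simp] theorem stepO_cup (b : Bool) (s : List CA) :
    stepO b 0 cup s = (Finset.univ.val : Multiset (ZMod 5)).map fun x => (b, x) :: (!b, x) :: s := by
  rw [← five]; cases s <;> rfl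
@[simp] theorem stepO_succ (b : Bool) (p : ℕ) (k : Kind) (a : CA) (s : List CA) :
    stepO b (p + 1) k (a :: s) = (stepO b p k s).map (a :: ·) := by cases k <;> rfl
@[simp] theorem stepO_succ_nil (b : Bool) (p : ℕ) (k : Kind) : stepO b (p + 1) k [] = 0 := by
  cases k <;> rfl

theorem stepO_eq (b : Bool) (p : ℕ) (k : Kind) (hk : k ≠ cup) (s : List CA) :
    stepO b p k s = step QA p k s := by
  induction p generalizing s with
  | zero =>
    cases k
    · exact absurd rfl hk
    all_goals
      rcases s with _ | ⟨a, _ | ⟨c, s⟩⟩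
      · rfl
      · rfl
    · simp only [stepO, stepL, step_cap]; split_ifs <;> rfl
    · rfl
    · rfl
  | succ p ih =>
    rcases s with _ | ⟨a, s⟩
    · simp
    · simp [ih]

theorem step_cup_eq (p : ℕ) (s : List CA) :
    step QA p cup s = stepO true p cup s + stepO false p cup s := by
  induction p generalizing s with
  | zero =>
    have : (Finset.univ.val : Multiset CA) = (Finset.univ.val : Multiset (ZMod 5)).map (true, ·) +
        (Finset.univ.val : Multiset (ZMod 5)).map (false, ·) := by decide
    rw [step_cup, this]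
    simp [QA]
  | succ p ih =>
    rcases s with _ | ⟨a, s⟩
    · simp
    · simp [ih]

/-- All choices of directions at the minima. -/
def lifts : List Gen → Multiset (List (Gen × Bool))
  | [] => {[]}
  | g :: w => if g.2 = cup then (lifts w).map ((g, true) :: ·) + (lifts w).map ((g, false) :: ·)
      else (lifts w).map ((g, true) :: ·)

theorem run_lifts (w : List Gen) (s : List CA) :
    run QA w s = (lifts w).bind fun ow => runO ow s := by
  induction w generalizing s with
  | nil => simp [lifts, runO_nil]
  | cons g w ih =>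
    have ih' : run QA w = fun r => (lifts w).bind fun ow => runO ow r := funext ih
    rw [run_cons, ih', lifts]
    split_ifs with h
    · rw [h, step_cup_eq, Multiset.add_bind, Multiset.add_bind, Multiset.bind_map,
        Multiset.bind_map]
      simp only [runO_cons, h]
      rw [Multiset.bind_bind, Multiset.bind_bind (stepO false g.1 cup s)]
    · rw [Multiset.bind_map]
      simp only [runO_cons, stepO_eq true _ _ h]
      rw [Multiset.bind_bind]

theorem stepO_le (b : Bool) (p : ℕ) (k : Kind) (s : List CA) : stepO b p k s ≤ step QA p k s := by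
  by_cases hk : k = cup
  · subst hk
    rw [step_cup_eq]
    cases b
    · exact le_add_self
    · exact le_self_add
  · rw [stepO_eq b p k hk]

theorem bind_mono {α β : Type} {m n : Multiset α} {f g : α → Multiset β} (h : m ≤ n)
    (hf : ∀ a ∈ m, f a ≤ g a) : m.bind f ≤ n.bind g := by
  obtain ⟨k, rfl⟩ := Multiset.le_iff_exists_add.1 h
  rw [Multiset.add_bind]
  refine le_trans ?_ le_self_add
  clear h
  induction m using Multiset.induction_on with
  | empty => simp
  | cons a m ih =>
    rw [Multiset.cons_bind, Multiset.cons_bind]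
    exact add_le_add (hf a (by simp)) (ih fun b hb => hf b (by simp [hb]))

theorem runO_le (w : List (Gen × Bool)) (s : List CA) : runO w s ≤ run QA (w.map Prod.fst) s := by
  induction w generalizing s with
  | nil => simp [runO_nil]
  | cons g w ih =>
    rw [runO_cons, List.map_cons, run_cons]
    exact bind_mono (stepO_le _ _ _ _) fun a _ => ih a

theorem lifts_fst (w : List Gen) (ow : List (Gen × Bool)) (h : ow ∈ lifts w) :
    ow.map Prod.fst = w := by
  induction w generalizing ow with
  | nil => simp [lifts] at h; simp [h]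
  | cons g w ih =>
    rw [lifts] at h
    split_ifs at h
    · simp only [Multiset.mem_add, Multiset.mem_map] at h
      rcases h with ⟨x, hx, rfl⟩ | ⟨x, hx, rfl⟩ <;> simp [ih x hx]
    · simp only [Multiset.mem_map] at h
      obtain ⟨x, hx, rfl⟩ := h
      simp [ih x hx]

theorem runO_nocup (w : List Gen) (h : ∀ g ∈ w, g.2 ≠ cup) (s : List CA) :
    runO (w.map (·, true)) s = run QA w s := by
  induction w generalizing s with
  | nil => rfl
  | cons g w ih =>
    rw [List.map_cons, runO_cons, run_cons, stepO_eq _ _ _ (h g (by simp))]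
    exact Multiset.bind_congr fun r _ => ih (fun g hg => h g (by simp [hg])) r

theorem stepO_sub (b : Bool) (p : ℕ) (k : Kind) (s s₀ r₀ : List CA) (hs : shape s = shape s₀)
    (h₀ : r₀ ∈ stepO b p k s₀) :
    (∀ r ∈ stepO b p k s, shape r = shape r₀) ∧
      (stepO b p k s).map (sub · r₀) ≤ stepO b p k (sub s s₀) := by
  induction p generalizing s s₀ r₀ with
  | zero =>
    cases k
    · simp only [stepO_cup, Multiset.mem_map] at h₀ ⊢
      obtain ⟨x₀, -, rfl⟩ := h₀
      refine ⟨?_, le_of_eq ?_⟩
      · rintro r ⟨x, -, rfl⟩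
        simpa [shape] using hs
      · rw [Multiset.map_map, ← univ_map_equiv (Equiv.subRight x₀)
          (fun x => (b, x) :: (!b, x) :: sub s s₀)]
        simp [sub]
    all_goals
      rw [stepO_eq _ _ _ (by simp)] at h₀
      rw [stepO_eq _ _ _ (by simp), stepO_eq _ _ _ (by simp)]
      rcases s₀ with _ | ⟨⟨a₀, x₀⟩, _ | ⟨⟨c₀, y₀⟩, s₀⟩⟩ <;> simp at h₀
      rcases s with _ | ⟨⟨a, x⟩, _ | ⟨⟨c, y⟩, s⟩⟩ <;> simp [shape] at hs
      obtain ⟨rfl, rfl, hs⟩ := hs
    · split_ifs at h₀ with h' <;> simp at h₀
      subst h₀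
      simp only [QA, Prod.mk.injEq] at h'
      obtain ⟨rfl, rfl⟩ := h'
      by_cases hxy : y = x
      · subst hxy
        simp [sub, QA, shape, hs]
      · simp [QA, hxy]
    · subst h₀
      simp [sub, QA, shape, hs]
      ring
    · subst h₀
      simp [sub, QA, shape, hs]
      ring
  | succ p ih =>
    rcases s₀ with _ | ⟨a₀, s₀⟩
    · simp at h₀
    rcases s with _ | ⟨a, s⟩
    · simp
    simp only [stepO_succ, Multiset.mem_map] at h₀
    obtain ⟨r₀, h₀, rfl⟩ := h₀
    simp only [shape, List.map_cons, List.cons.injEq] at hs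
    obtain ⟨h1, h2⟩ := ih s s₀ r₀ hs.2 h₀
    refine ⟨?_, ?_⟩
    · simp only [stepO_succ, Multiset.mem_map]
      rintro r ⟨r, hr, rfl⟩
      have := h1 r hr
      simp only [shape] at this
      simp [shape, hs.1, this]
    · have e : sub (a :: s) (a₀ :: s₀) = (a.1, a.2 - a₀.2) :: sub s s₀ := rfl
      rw [e, stepO_succ, stepO_succ, Multiset.map_map]
      have := Multiset.map_le_map (f := ((a.1, a.2 - a₀.2) :: ·)) h2
      rw [Multiset.map_map] at this
      exact this

theorem runO_sub (w : List (Gen × Bool)) (s s₀ r₀ : List CA) (hs : shape s = shape s₀)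
    (h₀ : r₀ ∈ runO w s₀) :
    (∀ r ∈ runO w s, shape r = shape r₀) ∧ (runO w s).map (sub · r₀) ≤ runO w (sub s s₀) := by
  induction w generalizing s s₀ with
  | nil =>
    simp only [runO_nil, Multiset.mem_singleton] at h₀ ⊢
    subst h₀
    simp [hs]
  | cons g w ih =>
    simp only [runO_cons, Multiset.mem_bind] at h₀ ⊢
    obtain ⟨t₀, ht₀, h₀⟩ := h₀
    obtain ⟨h1, h2⟩ := stepO_sub _ _ _ s s₀ t₀ hs ht₀
    refine ⟨?_, ?_⟩
    · rintro r ⟨t, ht, hr⟩
      exact (ih t t₀ (h1 t ht) h₀).1 r hr
    · rw [Multiset.map_bind]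
      refine le_trans (bind_mono le_rfl fun t ht => (ih t t₀ (h1 t ht) h₀).2) ?_
      rw [← Multiset.bind_map (f := (sub · t₀))]
      exact bind_mono h2 fun _ _ => le_rfl

theorem key_ineq (A : Multiset (List CA)) (f g : List CA → ℕ) (lam : List CA → ZMod 5)
    (ha : ∀ s₀ ∈ A, A.map (sub · s₀) ≤ A)
    (hb : ∀ s ∈ A, ∀ s₀ ∈ A, f s₀ ≠ 0 → f s ≤ f (sub s s₀))
    (hc : ∀ s ∈ A, ∀ s₀ ∈ A, lam (sub s s₀) = lam s - lam s₀)
    (hd : ∀ s ∈ A, lam s = 0 → f s ≤ g s) :
    (A.map f).sum ≤ 5 * (A.map g).sum := by
  have h1 : (A.map f).sum = ∑ c : ZMod 5, ((A.filter fun s => lam s = c).map f).sum := by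
    clear ha hb hc hd
    induction A using Multiset.induction_on with
    | empty => simp
    | cons a A ih =>
      simp only [Multiset.map_cons, Multiset.sum_cons, ih, Multiset.filter_cons, Multiset.map_add,
        Multiset.sum_add, Finset.sum_add_distrib]
      congr 1
      rw [Finset.sum_eq_single (lam a)] <;> simp +contextual [eq_comm]
  have h2 : ∀ c : ZMod 5, ((A.filter fun s => lam s = c).map f).sum ≤ (A.map g).sum := by
    intro c
    by_cases h : ∃ s₀ ∈ A.filter fun s => lam s = c, f s₀ ≠ 0
    · obtain ⟨s₀, hs₀, hf⟩ := h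
      rw [Multiset.mem_filter] at hs₀
      have e1 : ((A.filter fun s => lam s = c).map f).sum ≤
          ((A.filter fun s => lam s = c).map fun s => g (sub s s₀)).sum := by
        refine Multiset.sum_map_le_sum_map _ _ fun s hs => ?_
        rw [Multiset.mem_filter] at hs
        refine (hb s hs.1 s₀ hs₀.1 hf).trans (hd _ ?_ ?_)
        · exact Multiset.mem_of_le (ha s₀ hs₀.1) (Multiset.mem_map_of_mem _ hs.1)
        · rw [hc s hs.1 s₀ hs₀.1, hs.2, hs₀.2, sub_self]
      refine e1.trans ?_
      have e2 : (A.filter fun s => lam s = c).map (sub · s₀) ≤ A :=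
        (Multiset.map_le_map (Multiset.filter_le _ _)).trans (ha s₀ hs₀.1)
      have e3 := Multiset.map_le_map (f := g) e2
      rw [Multiset.map_map] at e3
      obtain ⟨k, hk⟩ := Multiset.le_iff_exists_add.1 e3
      rw [hk, Multiset.sum_add]
      exact le_self_add
    · push Not at h
      rw [Multiset.sum_eq_zero]
      · exact Nat.zero_le _
      · intro x hx
        obtain ⟨s, hs, rfl⟩ := Multiset.mem_map.1 hx
        exact h s hs
  rw [h1]
  refine (Finset.sum_le_sum fun c _ => h2 c).trans ?_
  simp

theorem foldr_QA (W : List CA) (y : CA) :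
    W.foldr QA.act y = (y.1, (W.foldr QA.act (true, 0)).2 +
      2 ^ (shape W).count true * 3 ^ (shape W).count false * y.2) := by
  induction W with
  | nil => simp [shape]
  | cons a W ih =>
    obtain ⟨b, x⟩ := a
    have e : shape ((b, x) :: W) = b :: shape W := rfl
    rw [List.foldr_cons, ih, List.foldr_cons, e]
    cases b <;> simp [QA, mu, pow_succ] <;> ring

theorem foldr_sub (W W₀ : List CA) (h : shape W = shape W₀) :
    ((sub W W₀).foldr QA.act (true, 0)).2 =
      (W.foldr QA.act (true, 0)).2 - (W₀.foldr QA.act (true, 0)).2 := by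
  induction W generalizing W₀ with
  | nil => cases W₀ <;> simp [shape, sub] at h ⊢
  | cons a W ih =>
    rcases W₀ with _ | ⟨a₀, W₀⟩
    · simp [shape] at h
    simp only [shape, List.map_cons, List.cons.injEq] at h
    have e : sub (a :: W) (a₀ :: W₀) = (a.1, a.2 - a₀.2) :: sub W W₀ := rfl
    have := ih W₀ h.2
    rw [e]
    simp only [List.foldr_cons]
    simp only [QA] at this ⊢
    rw [this, h.1]
    ring

/-- The window of a twist is balanced. -/
def Bal (n q : ℕ) (o : List Bool) : Prop :=
  q + n ≤ o.length ∧ ((o.drop q).take n).count true = ((o.drop q).take n).count false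

theorem full_nocup (n q : ℕ) : ∀ g ∈ full n q, g.2 ≠ cup := by
  intro g hg
  simp only [full, List.mem_flatten, List.mem_replicate] at hg
  obtain ⟨l, ⟨-, rfl⟩, hg⟩ := hg
  simp only [List.mem_map] at hg
  obtain ⟨i, -, rfl⟩ := hg
  simp

theorem shape_hom (w : List Gen) (s r : List CA) (h : r ∈ run QA w s) :
    shape r ∈ run QB w (shape s) :=
  run_hom QA QB Prod.fst (fun _ => rfl) (fun _ _ => rfl) w s r h

theorem twist_ineq (u v X Y : List Gen) (n q : ℕ)
    (hX : X = [] ∨ X = full n q) (hY : Y = [] ∨ Y = full n q)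
    (hbal : ∀ o ∈ run QB u [], run QB (X ++ v) o ≠ 0 → Bal n q o) :
    Multiset.card (run QA (u ++ X ++ v) []) ≤ 5 * Multiset.card (run QA (u ++ Y ++ v) []) := by
  have hXc : ∀ g ∈ X, g.2 ≠ cup := by
    rcases hX with rfl | rfl
    · simp
    · exact full_nocup n q
  have hYc : ∀ g ∈ Y, g.2 ≠ cup := by
    rcases hY with rfl | rfl
    · simp
    · exact full_nocup n q
  have key : ∀ Z : List Gen, (∀ g ∈ Z, g.2 ≠ cup) → Multiset.card (run QA (u ++ Z ++ v) []) =
      ((lifts u).map fun ou => ((lifts v).map fun ov =>
        ((runO ou []).map fun s => Multiset.card (runO (Z.map (·, true) ++ ov) s)).sum).sum).sum := by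
    intro Z hZ
    have e : ∀ s, run QA (Z ++ v) s = (lifts v).bind fun ov => runO (Z.map (·, true) ++ ov) s := by
      intro s
      rw [run_append, funext (run_lifts v), Multiset.bind_bind]
      simp only [runO_append, runO_nocup Z hZ]
    rw [List.append_assoc, run_append, run_lifts u, funext e, Multiset.bind_assoc,
      Multiset.card_bind]
    congr 1
    refine Multiset.map_congr rfl fun ou _ => ?_
    simp only [Function.comp]
    rw [Multiset.bind_bind, Multiset.card_bind]
    congr 1
    refine Multiset.map_congr rfl fun ov _ => ?_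
    simp only [Function.comp]
    rw [Multiset.card_bind]
    rfl
  rw [key X hXc, key Y hYc, ← Multiset.sum_map_mul_left]
  refine Multiset.sum_map_le_sum_map _ _ fun ou hou => ?_
  rw [← Multiset.sum_map_mul_left]
  refine Multiset.sum_map_le_sum_map _ _ fun ov hov => ?_
  have hsh : ∀ s ∈ runO ou [], ∀ s₀ ∈ runO ou [], shape s = shape s₀ :=
    fun s hs s₀ hs₀ => (runO_sub ou [] [] s₀ rfl hs₀).1 s hs
  refine key_ineq _ _ _ (fun s => (((s.drop q).take n).foldr QA.act (true, 0)).2) ?_ ?_ ?_ ?_
  · intro s₀ hs₀
    exact (runO_sub ou [] [] s₀ rfl hs₀).2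
  · intro s hs s₀ hs₀ hf
    obtain ⟨r₀, hr₀⟩ := Multiset.card_pos_iff_exists_mem.1 (Nat.pos_of_ne_zero hf)
    have := Multiset.card_le_card (runO_sub _ s s₀ r₀ (hsh s hs s₀ hs₀) hr₀).2
    rwa [Multiset.card_map] at this
  · intro s hs s₀ hs₀
    have e : ((sub s s₀).drop q).take n = sub ((s.drop q).take n) ((s₀.drop q).take n) := by
      simp [sub, List.drop_zipWith, List.take_zipWith]
    simp only [e]
    apply foldr_sub
    have := hsh s hs s₀ hs₀
    simp only [shape, List.map_take, List.map_drop] at this ⊢
    rw [this]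
  · intro s hs hl
    rcases Nat.eq_zero_or_pos (Multiset.card (runO (X.map (·, true) ++ ov) s)) with h0 | h0
    · rw [h0]; exact Nat.zero_le _
    obtain ⟨r, hr⟩ := Multiset.card_pos_iff_exists_mem.1 h0
    have h1 : shape s ∈ run QB u [] := by
      have := Multiset.mem_of_le (runO_le ou []) hs
      rw [lifts_fst u ou hou] at this
      exact shape_hom u [] s this
    have h2 : run QB (X ++ v) (shape s) ≠ 0 := by
      have := Multiset.mem_of_le (runO_le _ s) hr
      rw [List.map_append, lifts_fst v ov hov, List.map_map] at this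
      simp only [Function.comp_def, List.map_id'] at this
      exact fun h => by simpa [h] using shape_hom _ _ _ this
    obtain ⟨hb1, hb2⟩ := hbal _ h1 h2
    have hfix : run QA (full n q) s = {s} := by
      refine run_full_fix QA s n q (by simpa [shape] using hb1) fun y => ?_
      rw [foldr_QA]
      have e : shape ((s.drop q).take n) = ((shape s).drop q).take n := by
        simp [shape, List.map_take, List.map_drop]
      rw [hl, e, hb2, ← mul_pow, show (2 * 3 : ZMod 5) = 1 by decide]
      simp
    have e : ∀ Z, Z = [] ∨ Z = full n q → runO (Z.map (·, true) ++ ov) s = runO ov s := by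
      rintro Z (rfl | rfl)
      · rfl
      · rw [runO_append, runO_nocup _ (full_nocup n q), hfix, Multiset.singleton_bind]
    rw [e X hX, e Y hY]

theorem bal_of_two (u v : List Gen) (n q : ℕ) (o : List Bool) (h1 : o ∈ run QB u [])
    (h2 : run QB v o ≠ 0) (hb : Bal n q o) (h : Multiset.card (run QB (u ++ v) []) = 2)
    (o' : List Bool) (h1' : o' ∈ run QB u []) (h2' : run QB v o' ≠ 0) : Bal n q o' := by
  have hl : o'.length = o.length :=
    tangle_unique u _ _ _ (tangle_of_mem QB u [] _ h1') (tangle_of_mem QB u [] _ h1)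
  by_cases e1 : o' = o
  · rw [e1]; exact hb
  by_cases e2 : o' = o.map not
  · subst e2
    refine ⟨by simpa using hb.1, ?_⟩
    have c1 : ∀ l : List Bool, (l.map not).count true = l.count false := by
      intro l; induction l with
      | nil => rfl
      | cons a l ih => cases a <;> simp [ih]
    have c2 : ∀ l : List Bool, (l.map not).count false = l.count true := by
      intro l; induction l with
      | nil => rfl
      | cons a l ih => cases a <;> simp [ih]
    rw [← List.map_drop, ← List.map_take, c1, c2, hb.2]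
  exfalso
  have e3 : o ≠ o.map not := by
    rcases o with _ | ⟨a, o⟩
    · exact absurd (List.length_eq_zero_iff.1 hl) e1
    · cases a <;> simp
  have hn1 : o.map not ∈ run QB u [] := run_hom QB QB not (fun _ => rfl) (fun _ _ => rfl) u [] o h1
  have hn2 : run QB v (o.map not) ≠ 0 := by
    obtain ⟨r, hr⟩ := Multiset.exists_mem_of_ne_zero h2
    have := run_hom QB QB not (fun _ => rfl) (fun _ _ => rfl) v o r hr
    exact fun h => by simp [h] at this
  have hle : ({o', o, o.map not} : Multiset (List Bool)) ≤ run QB u [] := by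
    rw [Multiset.le_iff_subset]
    · intro x hx
      simp only [Multiset.insert_eq_cons, Multiset.mem_cons, Multiset.mem_singleton] at hx
      rcases hx with rfl | rfl | rfl <;> assumption
    · simp [e1, e2, e3]
  have := Multiset.card_le_card (bind_mono (f := run QB v) hle fun _ _ => le_rfl)
  rw [← run_append, h] at this
  simp only [Multiset.insert_eq_cons, Multiset.cons_bind, Multiset.singleton_bind,
    Multiset.card_add] at this
  have a1 := Multiset.card_pos.2 h2
  have a2 := Multiset.card_pos.2 h2'
  have a3 := Multiset.card_pos.2 hn2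
  omega

theorem foldr_QB (W : List Bool) (y : Bool) : W.foldr QB.act y = y := by
  induction W with
  | nil => rfl
  | cons a W ih => simp [ih, QB]

theorem twist_step (p : ℕ) (w w' : List Gen) (h : Twist p w w')
    (h2 : Multiset.card (run QB w' []) = 2) :
    Multiset.card (run QB w []) = 2 ∧
      Multiset.card (run QA w []) ≤ 5 * Multiset.card (run QA w' []) := by
  obtain ⟨u, v, o, n, q, ho, hv, -, hq, hb, h⟩ := h
  have ho' : o ∈ run QB u [] := by rw [run_QB]; exact ho
  have hv' : run QB v o ≠ 0 := by
    rw [run_QB]; intro h; rw [Multiset.coe_eq_zero] at h; simp [h] at hv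
  have hf : ∀ o' ∈ run QB u [], run QB (full n q ++ v) o' = run QB v o' := by
    intro o' h1'
    have hl : o'.length = o.length :=
      tangle_unique u _ _ _ (tangle_of_mem QB u [] _ h1') (tangle_of_mem QB u [] _ ho')
    rw [run_append, run_full_fix QB o' n q (by omega) (foldr_QB _), Multiset.singleton_bind]
  have he : run QB (u ++ full n q ++ v) [] = run QB (u ++ v) [] := by
    rw [List.append_assoc, run_append, run_append QB u v]
    exact Multiset.bind_congr hf
  rcases h with ⟨rfl, rfl⟩ | ⟨rfl, rfl⟩
  · rw [he] at h2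
    refine ⟨h2, ?_⟩
    have := twist_ineq u v [] (full n q) n q (Or.inl rfl) (Or.inr rfl)
      (fun o' h1' h2' => bal_of_two u v n q o ho' hv' ⟨hq, hb⟩ h2 o' h1' h2')
    simpa using this
  · refine ⟨he ▸ h2, ?_⟩
    have := twist_ineq u v (full n q) [] n q (Or.inr rfl) (Or.inl rfl)
      (fun o' h1' h2' => bal_of_two u v n q o ho' hv' ⟨hq, hb⟩ h2 o' h1' (hf o' h1' ▸ h2'))
    simpa using this

theorem untwists_bound (p : ℕ) (w : List Gen) (m : ℕ) (h : Untwists p w m) :
    Multiset.card (run QB w []) = 2 ∧ Multiset.card (run QA w []) ≤ 5 ^ m * 10 := by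
  induction h with
  | zero w h =>
    rw [iso_run_eq QB _ _ h, iso_run_eq QA _ _ h]
    refine ⟨by decide, ?_⟩
    simp [unknot, Multiset.bind_map, Multiset.bind_singleton]
  | succ w w₁ w₂ m h1 h2 _ ih =>
    obtain ⟨h3, h4⟩ := twist_step p w₁ w₂ h2 ih.1
    rw [iso_run_eq QB _ _ h1, iso_run_eq QA _ _ h1]
    refine ⟨h3, h4.trans ?_⟩
    rw [pow_succ]
    have := ih.2
    omega

end Pool.Agent.MP_ca7024_gt.H50
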